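import Mathlib
import Pool.Agent.W449.PV.Def
import Pool.Agent.W449.PV.Pigeon

/-!
# Defect groups are not bounded by vertices of simple modules for `p = 3`

For every algebraically closed field `F` of characteristic `3` there is a finite `3`-group `Q`
(of order at most `9`) such that for every `c` there are a finite group `G` and a simple
`FG`-module with vertex isomorphic to `Q` whose block has defect groups of order larger than `c`.
The groups are `PGL₃(q)` with `q = 4 ^ (3 ^ n)`.
-/

universe u

namespace Pool.Agent.Results.MP_d1e4d8_al.PuigVertexDefect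

open Pool.Agent.W449.PV

theorem result (F : Type u) [Field F] [IsAlgClosed F] [CharP F 3] :
    ∃ (Q : Type) (_ : Group Q), IsPGroup 3 Q ∧ Finite Q ∧ Nat.card Q ≤ 9 ∧
      ∀ c : ℕ, ∃ (G : Type) (_ : Group G) (_ : Finite G)
        (V : Type u) (_ : AddCommGroup V) (_ : Module F V) (_ : FiniteDimensional F V)
        (ρ : Representation F G V) (R : Subgroup G) (e : MonoidAlgebra F G) (D : Subgroup G),
        IsIrred ρ ∧ IsVertex ρ R ∧ Nonempty (R ≃* Q) ∧
        IsBlock e ∧ ρ.asAlgebraHom e = 1 ∧ IsDefectGroup e D ∧ c < Nat.card D :=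
  puig F

end Pool.Agent.Results.MP_d1e4d8_al.PuigVertexDefect
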